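import Pool.Agent.Results.MP_160b6c_nt.PowersAllHeights

set_option autoImplicit false

/-! The count of the exceptional invariants of PowersAllHeights, for all `X ≥ 1`. -/

namespace Pool.Agent.N578.TG.Tor

open Pool.Agent.Results.MP_160b6c_nt.PowersAllHeights (Invariants radical SmallTorsion)

theorem few (K : Type) [Field K] [NumberField K] (t : ℝ) (ht0 : 0 < t) (ht1 : t < 1) :
    ∃ s C : ℝ, 0 ≤ s ∧ s < 2 / 3 ∧ 0 ≤ C ∧ ∀ X : ℝ, 1 ≤ X →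
      {j : K | ((j ≠ 0 ∧ j ≠ 1728) ∧ ¬ SmallTorsion t j) ∧ radical j ≤ X}.Finite ∧
      ({j : K | ((j ≠ 0 ∧ j ≠ 1728) ∧ ¬ SmallTorsion t j) ∧ radical j ≤ X}.ncard : ℝ) ≤ C * X ^ s := by
  obtain ⟨hcount, hexc⟩ := Pool.Agent.Results.MP_160b6c_nt.PowersAllHeights.result K
  obtain ⟨ν, X₀, hν, hX₀⟩ := hexc t ht0 ht1
  obtain ⟨ν₁, hν₁⟩ : ∃ ν₁ : ℝ, ν₁ = min ν (1 / 3) := ⟨_, rfl⟩
  have hν₁0 : 0 < ν₁ := by rw [hν₁]; exact lt_min hν (by norm_num)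
  have hν₁ν : ν₁ ≤ ν := by rw [hν₁]; exact min_le_left _ _
  have hν₁3 : ν₁ ≤ 1 / 3 := by rw [hν₁]; exact min_le_right _ _
  obtain ⟨X₁, hX₁⟩ := hcount (ν₁ / 2) (by positivity)
  obtain ⟨B, hB⟩ : ∃ B : ℝ, B = max (max X₀ X₁) 1 := ⟨_, rfl⟩
  have hB1 : 1 ≤ B := by rw [hB]; exact le_max_right _ _
  have hBX₀ : X₀ ≤ B := by rw [hB]; exact (le_max_left _ _).trans (le_max_left _ _)
  have hBX₁ : X₁ ≤ B := by rw [hB]; exact (le_max_right _ _).trans (le_max_left _ _)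
  obtain ⟨s, hs⟩ : ∃ s : ℝ, s = 2 / 3 - ν₁ / 2 := ⟨_, rfl⟩
  have hs0 : 0 ≤ s := by rw [hs]; linarith
  refine ⟨s, B ^ s, hs0, by rw [hs]; linarith, by positivity, fun X hX => ?_⟩
  obtain ⟨Z, hZ⟩ : ∃ Z : ℝ, Z = B * X := ⟨_, rfl⟩
  have hZX : X ≤ Z := by rw [hZ]; nlinarith
  have hZB : B ≤ Z := by rw [hZ]; nlinarith
  have hZ1 : 1 ≤ Z := hX.trans hZX
  obtain ⟨k1, -, k2⟩ := hX₁ Z (hBX₁.trans hZB)
  have h2 := hX₀ Z (hBX₀.trans hZB)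
  have hsub : {j : K | ((j ≠ 0 ∧ j ≠ 1728) ∧ ¬ SmallTorsion t j) ∧ radical j ≤ X} ⊆
      {j : K | j ∈ Invariants K Z ∧ ¬ SmallTorsion t j} := by
    rintro j ⟨⟨⟨g1, g2⟩, g3⟩, g4⟩
    exact ⟨⟨g1, g2, g4.trans hZX⟩, g3⟩
  have hfin : {j : K | j ∈ Invariants K Z ∧ ¬ SmallTorsion t j}.Finite := k1.subset fun j hj => hj.1
  refine ⟨hfin.subset hsub, ?_⟩
  have h1 : ({j : K | ((j ≠ 0 ∧ j ≠ 1728) ∧ ¬ SmallTorsion t j) ∧ radical j ≤ X}.ncard : ℝ) ≤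
      ({j : K | j ∈ Invariants K Z ∧ ¬ SmallTorsion t j}.ncard : ℝ) := by
    exact_mod_cast Set.ncard_le_ncard hsub hfin
  refine h1.trans ?_
  have h3 : Z ^ (-ν) ≤ Z ^ (-ν₁) := Real.rpow_le_rpow_of_exponent_le hZ1 (by linarith)
  calc (({j : K | j ∈ Invariants K Z ∧ ¬ SmallTorsion t j} : Set K).ncard : ℝ)
      ≤ Z ^ (-ν) * ((Invariants K Z).ncard : ℝ) := h2
    _ ≤ Z ^ (-ν₁) * Z ^ (2 / 3 + ν₁ / 2) := mul_le_mul h3 k2 (Nat.cast_nonneg _) (by positivity)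
    _ = Z ^ s := by
        rw [← Real.rpow_add (by linarith), hs]
        congr 1
        ring
    _ = B ^ s * X ^ s := by rw [hZ, Real.mul_rpow (by linarith) (by linarith)]

end Pool.Agent.N578.TG.Tor
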