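import Mathlib

/-!
# Dyadic summation (helper578)
-/

set_option autoImplicit false

namespace Pool.Agent.N578.TG

/-- If a set of integers has at most `C X ^ s` elements `x` with `X / 2 < |x| ≤ X`, then it has at most `K X ^ s` elements
with `|x| ≤ X`. -/
theorem dyadic (S : Set ℤ) {C s : ℝ} (hs : 0 < s)
    (h : ∀ X : ℝ, 2 ≤ X → ({x : ℤ | x ∈ S ∧ X / 2 < |(x : ℝ)| ∧ |(x : ℝ)| ≤ X}.ncard : ℝ) ≤ C * X ^ s) :
    ∃ K : ℝ, 0 ≤ K ∧ ∀ X : ℝ, 1 ≤ X → {x : ℤ | x ∈ S ∧ |(x : ℝ)| ≤ X}.Finite ∧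
      ({x : ℤ | x ∈ S ∧ |(x : ℝ)| ≤ X}.ncard : ℝ) ≤ K * X ^ s := by
  have hfin : ∀ X : ℝ, {x : ℤ | x ∈ S ∧ |(x : ℝ)| ≤ X}.Finite := by
    intro X
    apply (Set.finite_Icc (-⌊X⌋) ⌊X⌋).subset
    rintro x ⟨_, hx⟩
    rw [Set.mem_Icc]
    have h1 := abs_le.1 hx
    constructor
    · have : -x ≤ ⌊X⌋ := Int.le_floor.2 (by push_cast; linarith)
      linarith
    · exact Int.le_floor.2 h1.2
  have h2s : 1 < (2 : ℝ) ^ s := Real.one_lt_rpow (by norm_num) hs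
  have hq : 0 < 1 - 1 / (2 : ℝ) ^ s := by
    rw [sub_pos, div_lt_one (by positivity)]
    exact h2s
  obtain ⟨K, hK⟩ : ∃ K : ℝ, K = |C| / (1 - 1 / (2 : ℝ) ^ s) + 3 := ⟨_, rfl⟩
  have hK0 : 3 ≤ K := by
    rw [hK]
    have : 0 ≤ |C| / (1 - 1 / (2 : ℝ) ^ s) := by positivity
    linarith
  have hK1 : |C| ≤ K * (1 - 1 / (2 : ℝ) ^ s) := by
    rw [hK, add_mul, div_mul_cancel₀ _ hq.ne']
    linarith
  -- small X
  have hsmall : ∀ X : ℝ, 1 ≤ X → X < 2 → ({x : ℤ | x ∈ S ∧ |(x : ℝ)| ≤ X}.ncard : ℝ) ≤ K * X ^ s := by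
    intro X hX1 hX2
    have hsub : {x : ℤ | x ∈ S ∧ |(x : ℝ)| ≤ X} ⊆ (({-1, 0, 1} : Finset ℤ) : Set ℤ) := by
      rintro x ⟨_, hx⟩
      have h1 := abs_le.1 hx
      have h2 : x < 2 := by
        have : (x : ℝ) < 2 := by linarith
        exact_mod_cast this
      have h3 : -2 < x := by
        have : (-2 : ℝ) < x := by linarith
        exact_mod_cast this
      simp only [Finset.coe_insert, Finset.coe_singleton, Set.mem_insert_iff, Set.mem_singleton_iff]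
      omega
    have h1 := Set.ncard_le_ncard hsub (Finset.finite_toSet _)
    rw [Set.ncard_coe_finset] at h1
    have h2 : ({x : ℤ | x ∈ S ∧ |(x : ℝ)| ≤ X}.ncard : ℝ) ≤ 3 := by
      have h3 : ({-1, 0, 1} : Finset ℤ).card = 3 := by decide
      rw [h3] at h1
      exact_mod_cast h1
    have h4 : 1 ≤ X ^ s := Real.one_le_rpow hX1 hs.le
    nlinarith
  have main : ∀ n : ℕ, ∀ X : ℝ, 1 ≤ X → X < 2 ^ (n + 1) →
      ({x : ℤ | x ∈ S ∧ |(x : ℝ)| ≤ X}.ncard : ℝ) ≤ K * X ^ s := by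
    intro n
    induction n with
    | zero => intro X hX1 hX2; exact hsmall X hX1 (by simpa using hX2)
    | succ n ih =>
      intro X hX1 hX2
      rcases lt_or_ge X 2 with h2 | h2
      · exact hsmall X hX1 h2
      · have h3 := ih (X / 2) (by linarith) (by
          rw [pow_succ] at hX2
          linarith)
        have h4 := h X h2
        have hsub : {x : ℤ | x ∈ S ∧ |(x : ℝ)| ≤ X} ⊆ {x : ℤ | x ∈ S ∧ |(x : ℝ)| ≤ X / 2} ∪
            {x : ℤ | x ∈ S ∧ X / 2 < |(x : ℝ)| ∧ |(x : ℝ)| ≤ X} := by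
          rintro x ⟨g1, g2⟩
          rcases le_or_gt |(x : ℝ)| (X / 2) with g | g
          · exact Or.inl ⟨g1, g⟩
          · exact Or.inr ⟨g1, g, g2⟩
        have hf2 : {x : ℤ | x ∈ S ∧ X / 2 < |(x : ℝ)| ∧ |(x : ℝ)| ≤ X}.Finite :=
          (hfin X).subset fun x hx => ⟨hx.1, hx.2.2⟩
        have h5 : ({x : ℤ | x ∈ S ∧ |(x : ℝ)| ≤ X}.ncard : ℝ) ≤
            ({x : ℤ | x ∈ S ∧ |(x : ℝ)| ≤ X / 2}.ncard : ℝ) +
            ({x : ℤ | x ∈ S ∧ X / 2 < |(x : ℝ)| ∧ |(x : ℝ)| ≤ X}.ncard : ℝ) := by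
          have := (Set.ncard_le_ncard hsub ((hfin _).union hf2)).trans (Set.ncard_union_le _ _)
          exact_mod_cast this
        have h6 : (X / 2) ^ s = X ^ s * (1 / (2 : ℝ) ^ s) := by
          rw [Real.div_rpow (by linarith) (by norm_num)]
          ring
        have hXs : 0 ≤ X ^ s := by positivity
        have h7 : C * X ^ s ≤ K * (1 - 1 / (2 : ℝ) ^ s) * X ^ s :=
          mul_le_mul_of_nonneg_right ((le_abs_self C).trans hK1) hXs
        calc _ ≤ K * (X / 2) ^ s + C * X ^ s := by linarith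
          _ ≤ K * (X ^ s * (1 / (2 : ℝ) ^ s)) + K * (1 - 1 / (2 : ℝ) ^ s) * X ^ s := by
            rw [h6]
            linarith
          _ = K * X ^ s := by ring
  refine ⟨K, by linarith, fun X hX => ⟨hfin X, ?_⟩⟩
  obtain ⟨n, hn⟩ := pow_unbounded_of_one_lt X (by norm_num : (1 : ℝ) < 2)
  exact main n X hX (hn.trans (pow_lt_pow_right₀ (by norm_num) (by omega)))

end Pool.Agent.N578.TG
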